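import Pool.Agent.Work.MP_dcf6a6_c1.Interface

namespace Pool.C1.helper93

open Finset

theorem pick_term_nonneg {n : ℕ} (h : 0 < n) : (0 : ℚ) ≤ 1 - 1 / (n : ℚ) := by
  have h1 : (1 : ℚ) ≤ n := by exact_mod_cast h
  have h2 : 1 / (n : ℚ) ≤ 1 := by
    rw [div_le_one (by linarith)]
    exact h1
  linarith

theorem pick_term_half {n : ℕ} (h : 0 < n) (h1 : n ≠ 1) : (1 / 2 : ℚ) ≤ 1 - 1 / (n : ℚ) := by
  have h2 : (2 : ℚ) ≤ n := by exact_mod_cast (by omega : 2 ≤ n)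
  have h3 : 1 / (n : ℚ) ≤ 1 / 2 := one_div_le_one_div_of_le (by norm_num) h2
  linarith

theorem stmt_PICK : Stmt_PICK := by
  intro B _ _ f hB hf hsum
  classical
  set S : Finset B := univ.filter (fun b => f b ≠ 1) with hS
  have hcard : S.card ≤ 3 := by
    by_contra hlt
    have h4 : 4 ≤ S.card := by omega
    have h1 : ∑ b ∈ S, (1 / 2 : ℚ) ≤ ∑ b ∈ S, (1 - 1 / (f b : ℚ)) :=
      sum_le_sum fun b hb => pick_term_half (hf b) (mem_filter.1 hb).2
    have h2 : ∑ b ∈ S, (1 - 1 / (f b : ℚ)) ≤ ∑ b, (1 - 1 / (f b : ℚ)) :=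
      sum_le_sum_of_subset_of_nonneg (subset_univ _) fun b _ _ => pick_term_nonneg (hf b)
    rw [sum_const, nsmul_eq_mul] at h1
    have h5 : (4 : ℚ) ≤ S.card := by exact_mod_cast h4
    linarith
  obtain ⟨T, hST, -, hT⟩ := exists_subsuperset_card_eq (subset_univ S) hcard
    (by rw [card_univ]; exact hB)
  have e := T.equivFinOfCardEq hT
  refine ⟨fun i => (e.symm i : B), fun i j hij => e.symm.injective (Subtype.ext hij), ?_, ?_⟩
  · intro b hb
    by_contra h1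
    have hbT : b ∈ T := hST (mem_filter.2 ⟨mem_univ _, h1⟩)
    exact hb ⟨e ⟨b, hbT⟩, by simp⟩
  · have h1 : ∑ i : Fin 3, (1 - 1 / (f (e.symm i : B) : ℚ)) = ∑ b ∈ T, (1 - 1 / (f b : ℚ)) := by
      rw [← Finset.sum_coe_sort T (fun b => (1 - 1 / (f b : ℚ)))]
      exact Equiv.sum_comp e.symm (fun b : T => (1 - 1 / (f (b : B) : ℚ)))
    rw [h1]
    exact (sum_le_sum_of_subset_of_nonneg (subset_univ _)
      fun b _ _ => pick_term_nonneg (hf b)).trans_lt hsum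

end Pool.C1.helper93
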