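import Pool.Agent.Work.MP_dcf6a6_c1.Interface

namespace Pool.C1.helper93

open Finset

/-- points of the affine cone -/
theorem nzg_rel {J K B : Type} [Fintype J] [Fintype K] [Fintype B]
    [DecidableEq J] [DecidableEq K] [DecidableEq B] (D : BData J B)
    (ψ : MvPolynomial (J ⊕ K) ℂ →ₐ[ℂ] ℂ) (s t : ℂ)
    (h : ∀ b, ψ (D.mono K b) = D.al b * s + D.be b * t) (b₀ b₁ b₂ : B) :
    ψ (D.rel K b₀ b₁ b₂) = 0 := by
  have hC : ∀ c : ℂ, ψ (MvPolynomial.C c) = c := by
    intro c
    have := ψ.commutes c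
    rwa [MvPolynomial.algebraMap_eq] at this
  unfold BData.rel BData.det
  rw [map_add, map_add, map_mul, map_mul, map_mul, hC, hC, hC, h, h, h]
  ring

theorem nzg_point {J B : Type} [Fintype J] [Fintype B]
    [DecidableEq J] [DecidableEq B] (D : BData J B) (c : B → ℂ) :
    ∃ p : J → ℂ, (∀ b, ∏ j with D.bl j = b, p j ^ D.l j = c b) ∧
      ∀ j, c (D.bl j) ≠ 0 → p j ≠ 0 := by
  classical
  obtain ⟨r, hr⟩ := D.bl_surj.hasRightInverse
  have hroot : ∀ b, ∃ z : ℂ, z ^ D.l (r b) = c b := fun b =>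
    IsAlgClosed.exists_pow_nat_eq (c b) (D.l_pos (r b))
  choose z hz using hroot
  refine ⟨fun j => if j = r (D.bl j) then z (D.bl j) else 1, ?_, ?_⟩
  · intro b
    rw [prod_eq_single (r b)]
    · dsimp only
      rw [hr b, if_pos rfl]
      exact hz b
    · intro j hj hne
      have hb : D.bl j = b := (mem_filter.1 hj).2
      dsimp only
      rw [hb, if_neg hne, one_pow]
    · intro h
      exact absurd ((mem_filter (p := fun j => D.bl j = b)).2 ⟨mem_univ (r b), hr b⟩) h
  · intro j hc
    dsimp only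
    split_ifs with h
    · intro h0
      have := hz (D.bl j)
      rw [h0, zero_pow (D.l_pos _).ne'] at this
      exact hc this.symm
    · exact one_ne_zero

theorem stmt_NZG : Stmt_NZG := by
  intro J K B _ _ _ _ _ _ D R _ _ π hker v hv
  classical
  -- a block vector not vanishing at the block of `v`
  obtain ⟨s, t, hst⟩ : ∃ s t : ℂ, ∀ j, v = Sum.inl j →
      D.al (D.bl j) * s + D.be (D.bl j) * t ≠ 0 := by
    rcases v with j | k
    · by_cases h0 : D.al (D.bl j) = 0
      · refine ⟨0, 1, fun j' hj' => ?_⟩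
        have hj : j = j' := Sum.inl_injective hj'
        subst hj
        obtain ⟨b', hb'⟩ : ∃ b', b' ≠ D.bl j := by
          by_contra hne
          push Not at hne
          have h1 : Fintype.card B ≤ 1 :=
            Fintype.card_le_one_iff.2 fun a b => (hne a).trans (hne b).symm
          have := D.three
          omega
        have h2 := D.indep _ _ hb'
        rw [h0, zero_mul] at h2
        simp only [mul_zero, mul_one, zero_add]
        intro h3
        rw [h3, mul_zero] at h2
        exact h2 rfl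
      · refine ⟨1, 0, fun j' hj' => ?_⟩
        have hj : j = j' := Sum.inl_injective hj'
        subst hj
        simpa using h0
    · exact ⟨0, 0, fun j hj => by cases hj⟩
  obtain ⟨p, hp, hp0⟩ := nzg_point D (fun b => D.al b * s + D.be b * t)
  let ψ : MvPolynomial (J ⊕ K) ℂ →ₐ[ℂ] ℂ := MvPolynomial.aeval (Sum.elim p (fun _ => 1))
  have hψ : ∀ b, ψ (D.mono K b) = D.al b * s + D.be b * t := by
    intro b
    unfold BData.mono
    rw [map_prod, ← hp b]
    refine prod_congr rfl fun j _ => ?_
    rw [map_pow]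
    simp [ψ]
  have hmem : MvPolynomial.X v ∈ RingHom.ker π := hv
  rw [hker] at hmem
  have hle : Ideal.span {r | ∃ b₀ b₁ b₂, r = D.rel K b₀ b₁ b₂} ≤ RingHom.ker ψ := by
    rw [Ideal.span_le]
    rintro _ ⟨b₀, b₁, b₂, rfl⟩
    exact nzg_rel D ψ s t hψ b₀ b₁ b₂
  have h0 : ψ (MvPolynomial.X v) = 0 := hle hmem
  rcases v with j | k
  · have h1 : ψ (MvPolynomial.X (Sum.inl j)) = p j := by simp [ψ]
    rw [h1] at h0
    exact hp0 j (hst j rfl) h0
  · have h1 : ψ (MvPolynomial.X (Sum.inr k)) = 1 := by simp [ψ]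
    rw [h1] at h0
    exact one_ne_zero h0

end Pool.C1.helper93
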